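import Pool.Agent.SurfTri.Base
import Pool.Agent.SurfTri.Count

set_option autoImplicit false

namespace Pool.Agent.Results.MP_2de2bd_co.DoubleTorus

open Pool.Agent.SurfTri

/-- Triangulations of the double torus containing the fan graph plus the edge `8 -- 1`. -/
lemma family (m : ℕ) : ∃ (U : Type) (_ : Fintype U) (T : OrientedTriangulation U),
    T.HasGenus 2 ∧ ∃ f : Fin (9 + m) → U, Function.Injective f ∧
      (∀ a b : Fin (9 + m), a.val < 8 → b.val < 8 → a ≠ b → T.graph.Adj (f a) (f b)) ∧
      (∀ a : Fin (9 + m), a.val ≠ 0 → T.graph.Adj (f a) (f ⟨0, by omega⟩)) ∧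
      (∀ a b : Fin (9 + m), 8 ≤ a.val → b.val = a.val + 1 → T.graph.Adj (f a) (f b)) ∧
      T.graph.Adj (f ⟨8, by omega⟩) (f ⟨1, by omega⟩) ∧
      T.tri (f ⟨8 + m, by omega⟩) (f ⟨0, by omega⟩) (f ⟨1, by omega⟩) := by
  induction m with
  | zero =>
    refine ⟨Fin 10, inferInstance, base, base_genus, fun a => ⟨a.val, by omega⟩, ?_, ?_, ?_, ?_,
      ?_, ?_⟩
    · intro a b h
      have h' := Fin.mk.inj h
      exact Fin.ext h'
    · intro a b ha hb hab
      exact base_K8 _ _ ha hb (fun h => hab (Fin.ext (Fin.mk.inj h)))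
    · intro a ha
      by_cases h8 : a.val < 8
      · exact base_K8 _ _ h8 (by norm_num) (fun h => ha (Fin.mk.inj h))
      · have : (⟨a.val, by omega⟩ : Fin 10) = 8 := Fin.ext (by simp; omega)
        show base.graph.Adj (⟨a.val, by omega⟩ : Fin 10) _
        rw [this]
        exact ⟨1, base_801⟩
    · intro a b ha hb
      omega
    · have h2 := base_rot _ _ _ base_801
      obtain ⟨d, hd⟩ := base_opp _ _ _ (base_rot _ _ _ h2)
      exact ⟨d, hd⟩
    · exact base_801
  | succ m ih =>
    obtain ⟨U, hU, T, hT, f, hf, h1, h2, h3, h4, h5⟩ := ih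
    set x := f ⟨8 + m, by omega⟩ with hx
    set y := f ⟨0, by omega⟩ with hy
    set z := f ⟨1, by omega⟩ with hz
    have hold : ∀ u v : U, T.graph.Adj u v →
        (T.stack x y z h5).graph.Adj (some u) (some v) := by
      intro u v huv
      exact stack_adj_old T h5 huv
    refine ⟨Option U, inferInstance, T.stack x y z h5, stack_genus T hT x y z h5,
      fun a => if h : a.val < 9 + m then some (f ⟨a.val, h⟩) else none, ?_, ?_, ?_, ?_, ?_, ?_⟩
    · intro a b hab
      simp only at hab
      by_cases ha : a.val < 9 + m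
      · by_cases hb : b.val < 9 + m
        · rw [dif_pos ha, dif_pos hb] at hab
          have := hf (Option.some.inj hab)
          exact Fin.ext (Fin.mk.inj this)
        · rw [dif_pos ha, dif_neg hb] at hab
          exact absurd hab (by simp)
      · by_cases hb : b.val < 9 + m
        · rw [dif_neg ha, dif_pos hb] at hab
          exact absurd hab (by simp)
        · exact Fin.ext (by omega)
    · intro a b ha hb hab
      simp only
      rw [dif_pos (by omega), dif_pos (by omega)]
      exact hold _ _ (h1 _ _ ha hb (fun h => hab (Fin.ext (Fin.mk.inj h))))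
    · intro a ha
      simp only
      rw [dif_pos (show 0 < 9 + m by omega)]
      by_cases ha2 : a.val < 9 + m
      · rw [dif_pos ha2]
        exact hold _ _ (h2 ⟨a.val, ha2⟩ ha)
      · rw [dif_neg ha2]
        exact ⟨some z, Or.inr (Or.inl ⟨rfl, rfl⟩)⟩
    · intro a b ha hb
      simp only
      have ha2 : a.val < 9 + m := by omega
      rw [dif_pos ha2]
      by_cases hb2 : b.val < 9 + m
      · rw [dif_pos hb2]
        exact hold _ _ (h3 ⟨a.val, ha2⟩ ⟨b.val, hb2⟩ ha hb)
      · rw [dif_neg hb2]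
        have : (⟨a.val, ha2⟩ : Fin (9 + m)) = ⟨8 + m, by omega⟩ := Fin.ext (by simp only; omega)
        rw [this]
        exact ⟨some z, Or.inr (Or.inr ⟨rfl, rfl⟩)⟩
    · simp only
      rw [dif_pos (show 8 < 9 + m by omega), dif_pos (show 1 < 9 + m by omega)]
      exact hold _ _ h4
    · simp only
      rw [dif_neg (show ¬ (8 + (m + 1) < 9 + m) by omega), dif_pos (show 0 < 9 + m by omega),
        dif_pos (show 1 < 9 + m by omega)]
      exact Or.inr (Or.inl ⟨rfl, rfl⟩)

lemma embeds_plus (m : ℕ) :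
    EmbedsIn 2 (fan (9 + m) ⊔ SimpleGraph.edge (⟨8, by omega⟩ : Fin (9 + m)) ⟨1, by omega⟩) := by
  obtain ⟨U, hU, T, hT, f, hf, h1, h2, h3, h4, _⟩ := family m
  refine ⟨U, hU, T, hT, f, hf, ?_⟩
  intro a b hab
  rw [SimpleGraph.sup_adj, SimpleGraph.edge_adj] at hab
  rcases hab with ⟨hne, h⟩ | ⟨h, hne⟩
  · rcases h with h | h | h | h | h
    · exact h1 a b h.1 h.2 hne
    · have ha : a = ⟨0, by omega⟩ := Fin.ext h
      have hb : b.val ≠ 0 := fun h' => hne (by rw [ha]; exact Fin.ext h'.symm)
      rw [ha]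
      exact (h2 b hb).symm
    · have hb : b = ⟨0, by omega⟩ := Fin.ext h
      have ha : a.val ≠ 0 := fun h' => hne (by rw [hb]; exact Fin.ext h')
      rw [hb]
      exact h2 a ha
    · exact h3 a b h.1 h.2
    · exact (h3 b a h.1 h.2).symm
  · rcases h with ⟨rfl, rfl⟩ | ⟨rfl, rfl⟩
    · exact h4
    · exact h4.symm

/-- For the closed orientable surface of genus two there are graphs with arbitrarily many vertices
that are embeddable and not edge-maximal, but do not extend to a triangulation by adding edges. -/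
theorem result : ∀ N : ℕ, ∃ n : ℕ, N ≤ n ∧ ∃ G : SimpleGraph (Fin n),
    EmbedsIn 2 G ∧ ¬ EdgeMaximalIn 2 G ∧ ¬ ExtendsToTriangulation 2 G := by
  intro N
  refine ⟨9 + N, by omega, fan (9 + N), ?_, ?_, fan_not_extends (by omega)⟩
  · obtain ⟨U, hU, T, hT, f, hf, h⟩ := embeds_plus N
    exact ⟨U, hU, T, hT, f, hf, fun a b hab => h a b (Or.inl hab)⟩
  · rintro ⟨_, hmax⟩
    apply hmax ⟨8, by omega⟩ ⟨1, by omega⟩ ?_ ?_ (embeds_plus N)
    · intro h
      have := congrArg Fin.val h
      simp only at this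
      omega
    · rintro ⟨_, h⟩
      simp only at h
      omega

end Pool.Agent.Results.MP_2de2bd_co.DoubleTorus
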